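import Pool.Agent.Helper74.BS.St2
import Pool.Agent.Helper83.PT.M_W

set_option autoImplicit false

/-! Project BS (helper74), MP_26f0da_lc, MODULE MT: the theorem for multihead automata; also MT2 (exact set, non-constant rank). -/

namespace Pool.Agent.Helper64.BS

open Pool.Agent.Helper73.DC Pool.Agent.Helper74.BS
open scoped Classical

/-- A node `x` with `cl x = x` has no derivation. -/
theorem evF_stuck {lf cl : ℕ → ℕ} {rs : ℕ → ℕ → ℕ} {tn : ℕ → ℕ} {x r : ℕ} {f : Fo}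
    (h : EvF lf cl rs tn x r f) : lf x = 0 → tn x = 0 → cl x = x → False := by
  induction h with
  | leaf x r hx =>
    intro h0 _ _
    omega
  | tree x r f _ ht _ _ =>
    intro _ h1 _
    exact ht h1
  | node x r1 r2 f1 f2 _ _ _ _ ih1 _ =>
    intro h0 h1 h2
    rw [h2] at ih1
    exact ih1 h0 h1 h2

/-- Derivations of a leaf. -/
theorem evF_leaf {lf cl : ℕ → ℕ} {rs : ℕ → ℕ → ℕ} {tn : ℕ → ℕ} {x r : ℕ} {f : Fo}
    (h : EvF lf cl rs tn x r f) (hx : lf x ≠ 0) : f = Fo.nil := by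
  cases h with
  | leaf _ _ _ => rfl
  | tree _ _ _ h0 _ _ => exact absurd h0 hx
  | node _ _ _ _ _ h0 _ _ _ => exact absurd h0 hx

/-- The data for the abstract theorem. -/
theorem mtData (hFI : StFI) (hMR1 : StMR1) (hMR2 : StMR2) (hG1 : StG1) (hG2 : StG2) (hG3 : StG3)
    (hL2 : StL2) {α : Type} [Fintype α] (M : MPDA α) :
    ∃ (cl lf tn : List α → ℕ → ℕ) (rs : List α → ℕ → ℕ → ℕ) (c0 : List α → ℕ)
      (gd : List α → ℕ → Prop) (e L : ℕ),
      E2 (fun w v => cl w (v 0)) ∧ E2 (fun w v => rs w (v 0) (v 1)) ∧ E2 (fun w v => lf w (v 0)) ∧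
      E2 (fun w v => tn w (v 0)) ∧ E2 (fun w _ => c0 w) ∧
      (∀ w x, cl w x < (w.length + 2) ^ e) ∧ (∀ w x r, rs w x r < (w.length + 2) ^ e) ∧
      (∀ w x, lf w x < (w.length + 2) ^ e) ∧ (∀ w, c0 w < (w.length + 2) ^ e) ∧
      (∀ w, gd w (c0 w)) ∧
      (∀ w x, gd w x → lf w x = 0 → tn w x ≠ 0 → gd w (rs w x 0)) ∧
      (∀ w x, gd w x → lf w x = 0 → tn w x = 0 →
        gd w (cl w x) ∧ ∀ r f, EvF (lf w) (cl w) (rs w) (tn w) (cl w x) r f →
          f ≠ Fo.nil ∧ gd w (rs w x r)) ∧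
      (∀ w x r f, gd w x → EvF (lf w) (cl w) (rs w) (tn w) x r f → wd f ≤ L) ∧
      (∀ w f, EvF (lf w) (cl w) (rs w) (tn w) (c0 w) 0 f ↔
        AccsF (mmv M w) (fun c => M.acc c.1) (M.q0, fun _ => 0) [M.z0] f) := by
  obtain ⟨T, K, num, qn, h⟩ := hG2 M
  obtain ⟨ecl, ers, elf, ecst, e, he⟩ := hG1 (α := α) T
  have hac : E2 (α := α) (fun w _ => T.ac w.length) := ecst T.F
  have htn : E2 (α := α) (fun w v => tnM T w (v 0)) := by
    have h1 := hL2.2.2 _ _ _ (hL2.2.1 _ _ (hL2.1 _ _ ecl hac).2.2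
      (hL2.1 _ _ elf (E2.const (α := α) 0)).2.2).2.1 (E2.const (α := α) 1) (E2.const (α := α) 0)
    have h2 : (fun (w : List α) (v : ℕ → ℕ) => tnM T w (v 0)) =
        (fun w v => if T.cl w (v 0) = T.ac w.length ∧ T.lf w (v 0) = 0 then 1 else 0) := by
      funext w v
      rfl
    rw [h2]
    have h3 : (fun (w : List α) (v : ℕ → ℕ) =>
        if T.cl w (v 0) = T.ac w.length ∧ T.lf w (v 0) = 0 then 1 else 0) =
        (fun w v => @ite ℕ (T.cl w (v 0) = T.ac w.length ∧ T.lf w (v 0) = 0)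
          (Classical.propDecidable _) 1 0) := by
      funext w v
      by_cases hc : T.cl w (v 0) = T.ac w.length ∧ T.lf w (v 0) = 0
      · rw [if_pos hc, if_pos hc]
      · rw [if_neg hc, if_neg hc]
    rw [h3]
    exact h1
  have htn1 : ∀ (w : List α) (x : ℕ), T.cl w x = T.ac w.length → T.lf w x = 0 → tnM T w x = 1 := by
    intro w x h1 h2
    unfold tnM
    rw [if_pos ⟨h1, h2⟩]
  have hc0 : ∀ w : List α, mnd M num w.length M.q0 [M.z0] (fun _ => 0) =
      num M.q0 [M.z0] * (w.length + 2) ^ T.k := by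
    intro w
    unfold mnd pcd
    rw [h.hk]
    simp
  have hone : ([M.z0] : List M.Γ).length ≤ K := by simpa using h.hK
  have hone' : ∀ Z : M.Γ, ([Z] : List M.Γ).length ≤ K := fun Z => by simpa using h.hK
  have hz : ∀ w : List α, ∀ j : Fin M.k, (fun _ : Fin M.k => 0) j ≤ w.length + 1 := fun w j =>
    Nat.zero_le _
  have hnps : ∀ (w : List α) (d : Fin M.k → Mv) (p : Fin M.k → ℕ) (j : Fin M.k),
      nps w d p j ≤ w.length + 1 := fun w d p j => min_le_right _ _
  refine ⟨T.cl, T.lf, tnM T, T.rs, fun w => mnd M num w.length M.q0 [M.z0] (fun _ => 0),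
    fun w x => x = T.ac w.length ∨ ∃ (q : M.Q) (β : List M.Γ) (p : Fin M.k → ℕ), β.length ≤ K ∧
      (∀ j, p j ≤ w.length + 1) ∧ x = mnd M num w.length q β p, e, K, ecl, ers, elf, htn, ?_,
    fun w x => (he w x 0).1, fun w x r => (he w x r).2.1, fun w x => (he w x 0).2.2.1, ?_, ?_, ?_,
    ?_, ?_, ?_⟩
  · have : (fun (w : List α) (_ : ℕ → ℕ) => mnd M num w.length M.q0 [M.z0] (fun _ => 0)) =
        (fun w _ => num M.q0 [M.z0] * (w.length + 2) ^ T.k) := by
      funext w _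
      exact hc0 w
    rw [this]
    exact ecst _
  · intro w
    exact (Pool.Agent.Helper83.PT.NW.mnd_lt M T K num qn h w M.q0 [M.z0] _ hone (hz w)).trans
      (he w 0 0).2.2.2
  · intro w
    exact Or.inr ⟨_, _, _, hone, hz w, rfl⟩
  · rintro w x (rfl | ⟨q, β, p, hβ, hp, rfl⟩) h0 h1
    · obtain ⟨-, -, -, -, -, g6⟩ := hG3 M T K num qn h w (fun _ => 0) (hz w)
      rw [g6] at h0
      exact absurd h0 one_ne_zero
    · obtain ⟨g1, g2, g3, g4, g5, g6⟩ := hG3 M T K num qn h w p hp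
      by_cases hq : M.acc q
      · rw [g1 q β hβ hq] at h0
        exact absurd h0 one_ne_zero
      · match β, hβ, h0, h1 with
        | [], _, h0, _ =>
          rw [g2 q hq] at h0
          omega
        | [Z], _, h0, h1 =>
          cases htr : M.tr q Z (fun j => symAt w (p j)) with
          | none =>
            exfalso
            apply h1
            unfold tnM
            rw [if_neg]
            rintro ⟨h2, -⟩
            rw [(g4 q Z hq htr).2] at h2
            exact absurd h2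
              (Pool.Agent.Helper83.PT.NW.mnd_lt M T K num qn h w q [Z] p (hone' Z) hp).ne
          | some t =>
            obtain ⟨q', d, γ⟩ := t
            rw [(g3 q Z q' d γ hq htr).2.2]
            exact Or.inr ⟨q', γ, _, h.hKt _ _ _ _ _ _ htr, hnps w d p, rfl⟩
        | Z :: Y :: β', hβ, h0, h1 =>
          rw [(g5 q Z Y β' hβ hq).2.2.1]
          exact Or.inl rfl
  · rintro w x (rfl | ⟨q, β, p, hβ, hp, rfl⟩) h0 h1
    · obtain ⟨-, -, -, -, -, g6⟩ := hG3 M T K num qn h w (fun _ => 0) (hz w)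
      rw [g6] at h0
      exact absurd h0 one_ne_zero
    · obtain ⟨g1, g2, g3, g4, g5, g6⟩ := hG3 M T K num qn h w p hp
      by_cases hq : M.acc q
      · rw [g1 q β hβ hq] at h0
        exact absurd h0 one_ne_zero
      · match β, hβ, h0, h1 with
        | [], _, h0, _ =>
          rw [g2 q hq] at h0
          omega
        | [Z], _, h0, h1 =>
          cases htr : M.tr q Z (fun j => symAt w (p j)) with
          | none =>
            have hcl := (g4 q Z hq htr).2
            refine ⟨?_, ?_⟩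
            · rw [hcl]
              exact Or.inr ⟨_, _, _, hone' Z, hp, rfl⟩
            · intro r f hE
              exfalso
              rw [hcl] at hE
              exact evF_stuck hE h0 h1 hcl
          | some t =>
            obtain ⟨q', d, γ⟩ := t
            obtain ⟨a1, a2, a3⟩ := g3 q Z q' d γ hq htr
            rw [htn1 w _ a2 a1] at h1
            exact absurd h1 one_ne_zero
        | Z :: Y :: β', hβ, h0, h1 =>
          obtain ⟨b1, b2, b3, b4⟩ := g5 q Z Y β' hβ hq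
          have hβ' : (Y :: β').length ≤ K := by
            simp only [List.length_cons] at hβ ⊢
            omega
          rw [b2]
          refine ⟨Or.inr ⟨_, _, _, hone' Z, hp, rfl⟩, ?_⟩
          intro r f hE
          obtain ⟨c1, c2⟩ := hMR2 M T K num qn h w _ r f hE q [Z] p (hone' Z) hp rfl
          by_cases hr : r = 0
          · subst hr
            refine ⟨?_, ?_⟩
            · rintro rfl
              have := c1 rfl
              cases this with
              | fin _ _ hF => exact hq hF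
            · rw [b3]
              exact Or.inl rfl
          · obtain ⟨q', p', e1, e2, e3⟩ := c2 hr
            refine ⟨?_, ?_⟩
            · rintro rfl
              cases e3
            · rw [e1, b4 q' p' e2]
              exact Or.inr ⟨_, _, _, hβ', e2, rfl⟩
  · rintro w x r f (rfl | ⟨q, β, p, hβ, hp, rfl⟩) hE
    · obtain ⟨-, -, -, -, -, g6⟩ := hG3 M T K num qn h w (fun _ => 0) (hz w)
      rw [evF_leaf hE (by rw [g6]; exact one_ne_zero)]
      exact Nat.zero_le _
    · obtain ⟨c1, c2⟩ := hMR2 M T K num qn h w _ r f hE q β p hβ hp rfl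
      obtain ⟨-, -, -, i4, i5⟩ := hFI (mmv M w) (fun c => M.acc c.1)
      by_cases hr : r = 0
      · exact (i4 _ _ _ (c1 hr)).trans hβ
      · obtain ⟨q', p', -, -, e3⟩ := c2 hr
        exact (i5 _ _ _ _ e3).1.trans hβ
  · intro w f
    constructor
    · intro hE
      exact (hMR2 M T K num qn h w _ 0 f hE M.q0 [M.z0] _ hone (hz w) rfl).1 rfl
    · intro hA
      exact (hMR1 M T K num qn h w M.q0 [M.z0] _ hone (hz w)).2 f hA

/-- Accepting runs and first acceptance. -/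
theorem mtree_iff (hFI : StFI) {α : Type} (M : MPDA α) (w : List α) (K j : ℕ) :
    (∃ f, AccsF (mmv M w) (fun c => M.acc c.1) (M.q0, fun _ => 0) [M.z0] f ∧ cn K j f = 0) ↔
      ∃ f, MTree M w f ∧ cn K j f = 0 := by
  obtain ⟨i1, i2, -, -, -⟩ := hFI (mmv M w) (fun c => M.acc c.1)
  constructor
  · rintro ⟨f, hf, h0⟩
    exact ⟨f, i2 _ _ _ hf, h0⟩
  · rintro ⟨f, hf, h0⟩
    obtain ⟨f1, h1, h2⟩ := i1 _ _ _ hf
    exact ⟨f1, h1, Nat.le_zero.1 (h0 ▸ h2 K j)⟩

theorem mtree_iff' (hFI : StFI) {α : Type} (M : MPDA α) (w : List α) :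
    (∃ f, AccsF (mmv M w) (fun c => M.acc c.1) (M.q0, fun _ => 0) [M.z0] f) ↔
      ∃ f, MTree M w f := by
  obtain ⟨i1, i2, -, -, -⟩ := hFI (mmv M w) (fun c => M.acc c.1)
  constructor
  · rintro ⟨f, hf⟩
    exact ⟨f, i2 _ _ _ hf⟩
  · rintro ⟨f, hf⟩
    obtain ⟨f1, h1, -⟩ := i1 _ _ _ hf
    exact ⟨f1, h1⟩

/-- **MODULE MT**. -/
theorem hMT (hAF : StAF) (_hFO : StFO) (hFI : StFI) (hMR1 : StMR1) (hMR2 : StMR2) (hG1 : StG1)
    (hG2 : StG2) (hG3 : StG3) (_hL1 : StL1) (hL2 : StL2) : Pool.Agent.Helper74.BS.StMT := by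
  intro α _ M c
  obtain ⟨cl, lf, tn, rs, c0, gd, e, L, h1, h2, h3, h4, h5, h6, h7, h8, h9, h10, h11, h12, h13,
    h14⟩ := mtData hFI hMR1 hMR2 hG1 hG2 hG3 hL2 M
  obtain ⟨a1, a2⟩ := hAF cl lf tn rs c0 gd e c L h1 h2 h3 h4 h5 h6 h7 h8 h9 h10 h11 h12 h13
  have key : ∀ (w : List α) (K j : ℕ),
      (∃ f, MTree M w f ∧ cn K j f = 0) ↔
        ∃ f, EvF (lf w) (cl w) (rs w) (tn w) (c0 w) 0 f ∧ cn K j f = 0 := by
    intro w K j
    rw [← mtree_iff hFI M w K j]
    simp only [h14]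
  have key' : ∀ (w : List α),
      (∃ f, MTree M w f) ↔ ∃ f, EvF (lf w) (cl w) (rs w) (tn w) (c0 w) 0 f := by
    intro w
    rw [← mtree_iff' hFI M w]
    simp only [h14]
  refine ⟨?_, ?_⟩
  · intro Rf hRf
    obtain ⟨Lg, b1, b2, b3⟩ := a1 Rf hRf
    exact ⟨Lg, b1, fun w hw => b2 ((key w _ _).1 hw), fun w hw => (key' w).2 (b3 hw)⟩
  · intro R
    have e1 : {w : List α | ∃ f, MTree M w f ∧ cn (KK c w.length) (R + 1) f = 0} =
        {w | ∃ f, EvF (lf w) (cl w) (rs w) (tn w) (c0 w) 0 f ∧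
          cn (KK c w.length) (R + 1) f = 0} := by
      ext w
      exact key w _ _
    rw [e1]
    exact a2 R

/-- **MODULE MT2**. -/
theorem hMT2 (hAF2 : StAF2) (hFI : StFI) (hMR1 : StMR1) (hMR2 : StMR2) (hG1 : StG1)
    (hG2 : StG2) (hG3 : StG3) (hL2 : StL2) : Pool.Agent.Helper74.BS.StMT2 := by
  intro α _ M c d Rf hRf hd
  obtain ⟨cl, lf, tn, rs, c0, gd, e, L, h1, h2, h3, h4, h5, h6, h7, h8, h9, h10, h11, h12, h13,
    h14⟩ := mtData hFI hMR1 hMR2 hG1 hG2 hG3 hL2 M
  have a1 := hAF2 cl lf tn rs c0 gd e c L h1 h2 h3 h4 h5 h6 h7 h8 h9 h10 h11 h12 h13 Rf d hRf hd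
  have e1 : {w : List α | ∃ f, MTree M w f ∧ cn (KK c w.length) (Rf w.length + 1) f = 0} =
      {w | ∃ f, EvF (lf w) (cl w) (rs w) (tn w) (c0 w) 0 f ∧
        cn (KK c w.length) (Rf w.length + 1) f = 0} := by
    ext w
    show (∃ f, MTree M w f ∧ cn (KK c w.length) (Rf w.length + 1) f = 0) ↔ _
    rw [← mtree_iff hFI M w]
    simp only [h14]
    rfl
  rw [e1]
  exact a1

end Pool.Agent.Helper64.BS
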